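import Pool.Agent.H81.NCH.Stmts
import Pool.Agent.H81.NCH.Base

/-!
# Board `nch`, module CNT: counting points
-/

set_option autoImplicit false

namespace Pool.Agent.H81.NCH

namespace CNT

theorem card_Icc_int (K1 : ℕ) : (Finset.Icc (-(K1 : ℤ)) (K1 : ℤ)).card = 2 * K1 + 1 := by
  rw [Int.card_Icc]
  omega

end CNT

open CNT in
theorem cnt_thm : CNTStmt := by
  refine ⟨?_, ?_⟩
  · intro S σ K1 hσ hS
    rcases S.eq_empty_or_nonempty with rfl | ⟨x0, hx0⟩
    · simp
    · rw [← card_Icc_int]
      refine Finset.card_le_card_of_injOn (fun x => x - x0) ?_ ?_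
      · intro x hx
        have h1 := hS x hx x0 hx0
        rw [abs_mul] at h1
        have h2 : 1 ≤ |σ| := Int.one_le_abs hσ
        have h3 : |x - x0| ≤ |σ| * |x - x0| := le_mul_of_one_le_left (abs_nonneg _) h2
        have h4 := abs_le.1 (h3.trans h1)
        exact Finset.mem_coe.2 (Finset.mem_Icc.2 h4)
      · intro x _ y _ h
        simpa using h
  · intro S α β γ δ K1 hdet hS
    rcases S.eq_empty_or_nonempty with rfl | ⟨q, hq⟩
    · simp
    · have h0 : (2 * K1 + 1) ^ 2 =
          ((Finset.Icc (-(K1 : ℤ)) (K1 : ℤ)) ×ˢ (Finset.Icc (-(K1 : ℤ)) (K1 : ℤ))).card := by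
        rw [Finset.card_product, card_Icc_int]
        ring
      rw [h0]
      refine Finset.card_le_card_of_injOn (fun p => (α * (p.1 - q.1) + β * (p.2 - q.2),
        γ * (p.1 - q.1) + δ * (p.2 - q.2))) ?_ ?_
      · intro p hp
        obtain ⟨h1, h2⟩ := hS p hp q hq
        exact Finset.mem_coe.2 (Finset.mem_product.2
          ⟨Finset.mem_Icc.2 (abs_le.1 h1), Finset.mem_Icc.2 (abs_le.1 h2)⟩)
      · intro p _ p' _ h
        have h1 := congrArg Prod.fst h
        have h2 := congrArg Prod.snd h
        simp only at h1 h2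
        have e1 : (α * δ - β * γ) * (p.1 - p'.1) = 0 := by linear_combination δ * h1 - β * h2
        have e2 : (α * δ - β * γ) * (p.2 - p'.2) = 0 := by linear_combination α * h2 - γ * h1
        have f1 : p.1 = p'.1 := by
          have := (mul_eq_zero.1 e1).resolve_left hdet
          omega
        have f2 : p.2 = p'.2 := by
          have := (mul_eq_zero.1 e2).resolve_left hdet
          omega
        exact Prod.ext f1 f2

end Pool.Agent.H81.NCH
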