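import Pool.Agent.H81.NCH.Stmts
import Pool.Agent.H81.NCH.Base

/-!
# Board `nch`, module ONE: one step of the recursion, for fixed numbers
-/

set_option autoImplicit false

namespace Pool.Agent.H81.NCH

open Pool.Agent.H80

universe u

namespace ONE

section

variable {K : Type u} [Field K] {h m n : ℕ} [NeZero n] {r : ℕ → ℕ → ℕ}

theorem rk_zero (F : (ℕ → Fin n) → K) (hF : ∀ w, F w = 0) : rk h m r F = 0 := by
  unfold rk
  have : (Matrix.of fun (y z : Fin (dd h m) → Fin n) => F (mixW h m r (ext y) (ext z))) = 0 := by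
    ext y z
    simp [hF]
  rw [this, Matrix.rank_zero]

theorem rk_add (hRKA : RKAStmt.{u}) (F G : (ℕ → Fin n) → K) :
    rk h m r (fun w => F w + G w) ≤ rk h m r F + rk h m r G := by
  have h1 := hRKA K h m n r Bool Finset.univ (fun b => if b then F else G)
  simp only [Fintype.sum_bool, if_true, Bool.false_eq_true, if_false] at h1
  exact h1

omit [NeZero n] in
theorem mul_deg (hTYP : TYPStmt.{u}) {D : Circuit K (Fin n)} (X : HVal D) {x : D.V}
    (hx : MulN X x) : X.deg x = X.deg (lft D x) + X.deg (rgt D x) := by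
  obtain ⟨h0, p, q, hg⟩ := hx
  have h1 := ((hTYP K n D X x 0).2.2 h0).2.2.2 p q hg
  have hl : lft D x = p := by
    unfold lft
    rw [hg]
  have hr : rgt D x = q := by
    unfold rgt
    rw [hg]
  rw [hl, hr]
  exact h1.2.2.1

end

end ONE

open ONE in
open Classical in
theorem one_thm (hDEC : DECStmt.{u}) (hGST : GSTStmt) (hRKA : RKAStmt.{u}) (hRKO : RKOStmt.{u})
    (hPRD : PRDStmt.{u}) (hTYP : TYPStmt.{u}) : ONEStmt.{u} := by
  intro K _ h m n _ r D X g e i v a hm hn hRB hg hv hi he ha hb hd hpot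
  have hgood : Good h m r g e i a (a + X.deg v) :=
    (hGST h m r g e i a (a + X.deg v) hm).1 he hi ha hb hd hpot
  obtain ⟨G0, G, hG0d, hGd, hG0z, hGz, hsum⟩ :=
    hDEC K h m n r D X g e i v a hm hRB hg hv hgood
  -- the ranks add up
  have key : rk h m r (FF X v a) ≤ ∑ x ∈ Sb X v, ∑ a' ∈ Finset.range (dd h m + 1),
      (rk h m r (fun w => G0 x a' w * FF X x a' w) +
        ∑ p ∈ nds h e i, rk h m r (fun w => G p x a' w * FF X x a' w)) := by
    have e1 : FF X v a = fun w => ∑ x ∈ Sb X v, (fun x w => ∑ a' ∈ Finset.range (dd h m + 1),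
        (G0 x a' w + ∑ p ∈ nds h e i, G p x a' w) * FF X x a' w) x w := by
      funext w
      exact hsum w
    rw [e1]
    refine (hRKA K h m n r D.V (Sb X v) _).trans (Finset.sum_le_sum fun x _ => ?_)
    refine (hRKA K h m n r ℕ (Finset.range (dd h m + 1)) (fun a' w =>
      (G0 x a' w + ∑ p ∈ nds h e i, G p x a' w) * FF X x a' w)).trans
      (Finset.sum_le_sum fun a' _ => ?_)
    have e2 : (fun w => (G0 x a' w + ∑ p ∈ nds h e i, G p x a' w) * FF X x a' w) =
        fun w => (fun w => G0 x a' w * FF X x a' w) w +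
          (fun w => ∑ p ∈ nds h e i, (fun p w => G p x a' w * FF X x a' w) p w) w := by
      funext w
      simp only [add_mul, Finset.sum_mul]
    rw [e2]
    refine (rk_add hRKA _ _).trans (Nat.add_le_add_left ?_ _)
    exact hRKA K h m n r (ℕ × ℕ) (nds h e i) _
  have hmpos : (0 : ℝ) < m := by exact_mod_cast hm
  have hA : (0 : ℝ) < (m : ℝ) ^ absw h m r a (a + X.deg v) := pow_pos hmpos _
  -- relative ranks
  have key2 : rho h m r a (a + X.deg v) (FF X v a) ≤
      ∑ x ∈ Sb X v, ∑ a' ∈ Finset.range (dd h m + 1),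
      (rho h m r a (a + X.deg v) (fun w => G0 x a' w * FF X x a' w) +
        ∑ p ∈ nds h e i, rho h m r a (a + X.deg v) (fun w => G p x a' w * FF X x a' w)) := by
    have e3 : (∑ x ∈ Sb X v, ∑ a' ∈ Finset.range (dd h m + 1),
      (rho h m r a (a + X.deg v) (fun w => G0 x a' w * FF X x a' w) +
        ∑ p ∈ nds h e i, rho h m r a (a + X.deg v) (fun w => G p x a' w * FF X x a' w))) =
        ((∑ x ∈ Sb X v, ∑ a' ∈ Finset.range (dd h m + 1),
      (rk h m r (fun w => G0 x a' w * FF X x a' w) +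
        ∑ p ∈ nds h e i, rk h m r (fun w => G p x a' w * FF X x a' w)) : ℕ) : ℝ) /
          (m : ℝ) ^ absw h m r a (a + X.deg v) := by
      push_cast
      simp only [rho, Finset.sum_div, add_div]
    rw [e3]
    unfold rho
    gcongr
  refine key2.trans ?_
  have e4 : ((Sb X v).card : ℝ) * (dd h m + 1) * (1 / (m : ℝ) ^ KK h) =
      ∑ x ∈ Sb X v, ∑ a' ∈ Finset.range (dd h m + 1), (1 / (m : ℝ) ^ KK h) := by
    simp only [Finset.sum_const, Finset.card_range, nsmul_eq_mul]
    push_cast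
    ring
  rw [e4, ← Finset.sum_add_distrib]
  refine Finset.sum_le_sum fun x _ => ?_
  rw [← Finset.sum_add_distrib]
  refine Finset.sum_le_sum fun a' _ => ?_
  have hz : ∀ F : (ℕ → Fin n) → K, (∀ w, F w = 0) → rho h m r a (a + X.deg v) F = 0 := by
    intro F hF
    unfold rho
    rw [rk_zero F hF]
    simp
  refine add_le_add ?_ (Finset.sum_le_sum fun p _ => ?_)
  · by_cases hc : MulN X x ∧ a ≤ a' ∧ a' + X.deg x ≤ a + X.deg v ∧
      ¬ Alive h m r a' (a' + X.deg (lft D x)) (a' + X.deg (lft D x) + X.deg (rgt D x))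
    · obtain ⟨c1, c2, c3, c4⟩ := hc
      have hdeg := mul_deg hTYP X c1
      refine (hRKO K h m n r (FF X x a') (G0 x a') a a' (a' + X.deg x) (a + X.deg v) hm hn c2
        (by omega) c3 hd (hG0d x a')).trans ?_
      exact (hPRD K h m n r D X x a' hm hn c1 (by omega)).2.2.2.1 c4
    · rw [hz]
      · positivity
      · intro w
        rw [hG0z x a' hc w, zero_mul]
  · by_cases hc : MulN X x ∧ a ≤ a' ∧ a' + X.deg x ≤ a + X.deg v ∧
      Alive h m r a' (a' + X.deg (lft D x)) (a' + X.deg (lft D x) + X.deg (rgt D x)) ∧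
      Stop h m p.1 p.2 a' (a' + X.deg (lft D x)) (a' + X.deg (lft D x) + X.deg (rgt D x)) ∧
      Inside e i p.1 p.2 ∧ p.1 + 10 ≤ h ∧ p.2 < 2 ^ p.1 ∧
      g ≤ Pot h m p.1 p.2 a' (a' + X.deg x)
    · obtain ⟨c1, c2, c3, c4, c5, c6, c7, c8, c9⟩ := hc
      rw [if_pos ⟨c1, by omega, c4, c5, c7, c8, c9⟩]
      exact hRKO K h m n r (FF X x a') (G p x a') a a' (a' + X.deg x) (a + X.deg v) hm hn c2
        (by omega) c3 hd (hGd p x a')
    · rw [hz]
      · split_ifs
        · unfold rho
          positivity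
        · exact le_rfl
      · intro w
        rw [hGz p x a' hc w, zero_mul]

end Pool.Agent.H81.NCH
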